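import Pool.Agent.KS7_39.D57.Bin

/-!
# MP_3a69bf_ag: ideals between the local Markov minors and the points with 0/1 edge weights

Let two vertices of a DAG have a smallest d-separating set with at least two elements.  No ideal
which contains the determinants of the local Markov property and vanishes at the (finitely many)
covariance matrices with edge weights `0`, `1` and error variances `1` is generated by binomials.
This covers the vanishing ideal of the Gaussian DAG model over every extension field of `ℝ`, the
local Markov ideal, and the vanishing ideals of the submodels, such as the one with equal error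
variances.
-/

set_option autoImplicit false

namespace Pool.Agent.Results.MP_3a69bf_ag.IntermediateIdeals

open Relation MvPolynomial
open Pool.Agent.KS7_39.D57
open Pool.Agent.Results.MP_3a69bf_ag.LargeSeparators

variable {V : Type*} [Fintype V] [DecidableEq V] {E : V → V → Prop}

theorem pts_sub : pts E ⊆ model E := by
  rintro y ⟨L, hL, hy⟩
  refine ⟨L, fun _ => 1, fun u v huv => ?_, fun _ => one_pos, hy⟩
  rcases hL u v with h | h
  · exact h
  · exact absurd h.1 huv

theorem minor_zero {K : Type*} [Field K] [Algebra ℝ K] (hE : Acyclic E) {i j : V}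
    (hji : ¬ ReflTransGen E j i) {y : Sym2 V → ℝ} (hy : y ∈ model E) :
    aeval (fun e => algebraMap ℝ K (y e)) (markovMinor K E i j) = 0 := by
  classical
  let row : Option {q // E q j} → V := fun r => r.elim i (fun q => q.1)
  have hrow_anc : ∀ r, ¬ ReflTransGen E j (row r) := by
    intro r h
    rcases r with _ | q
    · exact hji h
    · exact hE j (TransGen.tail' h q.2)
  obtain ⟨l, hl, hl2⟩ := markov hE hy j
  have hM : markovMinor K E i j = (markovMatrix K E i j).det := det_inst _ _ _ _ _
  rw [hM, AlgHom.map_det]
  apply Matrix.exists_mulVec_eq_zero_iff.1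
  refine ⟨fun r => r.elim 1 (fun q => - algebraMap ℝ K (l q.1)), fun h => ?_, ?_⟩
  · have := congrFun h none
    simp at this
  · funext r
    show ∑ c, aeval (fun e => algebraMap ℝ K (y e)) (markovMatrix K E i j r c) * _ = 0
    rw [Fintype.sum_option]
    have e1 : ∀ c, aeval (fun e => algebraMap ℝ K (y e)) (markovMatrix K E i j r c) =
        algebraMap ℝ K (y s(row r, c.elim j (fun q => q.1))) := fun c => aeval_X _ _
    simp only [e1, Option.elim_none, Option.elim_some, mul_one, mul_neg, Finset.sum_neg_distrib]
    have e2 := hl2 (row r) (hrow_anc r)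
    have e3 : y s(row r, j) + -∑ q : {q // E q j}, y s(row r, q.1) * l q.1 = 0 := by
      rw [e2, ← Finset.sum_subtype (Finset.univ.filter (fun q => E q j)) (by simp)
        (fun q => y s(row r, q) * l q), Finset.sum_filter_of_ne]
      · ring
      · intro q _ hq
        by_contra hn
        exact hq (by rw [hl q hn, mul_zero])
    have e4 := congrArg (algebraMap ℝ K) e3
    rw [map_zero, map_add, map_neg, map_sum] at e4
    simp only [map_mul] at e4
    exact e4

/-- (1) every ideal between the local Markov minors and the points with 0/1 edge weights; (2) the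
vanishing ideal of every set of points between these points and the model, over every extension
field of `ℝ`; (3) the ideal generated by the local Markov minors. -/
theorem result {n : ℕ} (E : Fin n → Fin n → Prop) (hE : Acyclic E) (i j : Fin n) (hij : i ≠ j)
    (k : ℕ) (hk : IsLeast {k | ∃ C : Finset (Fin n), i ∉ C ∧ j ∉ C ∧ DSeparates E C i j ∧
      C.card = k} k) (h2 : 2 ≤ k) (K : Type) [Field K] [Algebra ℝ K] :
    (∀ J : Ideal (MvPolynomial (Sym2 (Fin n)) K),
      (∀ a b, ¬ ReflTransGen E b a → ¬ E a b → markovMinor K E a b ∈ J) →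
      (∀ f ∈ J, ∀ y ∈ pts E, aeval (fun e => algebraMap ℝ K (y e)) f = 0) → ¬ GenBin J) ∧
    (pts E ⊆ model E ∧ ∀ S : Set (Sym2 (Fin n) → ℝ), pts E ⊆ S → S ⊆ model E →
      ¬ GenBin (vanishingIdeal K ((fun y e => algebraMap ℝ K (y e)) '' S))) ∧
    ¬ GenBin (Ideal.span {f : MvPolynomial (Sym2 (Fin n)) K |
      ∃ a b, ¬ ReflTransGen E b a ∧ ¬ E a b ∧ f = markovMinor K E a b}) := by
  have hmain : ∀ J : Ideal (MvPolynomial (Sym2 (Fin n)) K),
      (∀ a b, ¬ ReflTransGen E b a → ¬ E a b → markovMinor K E a b ∈ J) →
      (∀ f ∈ J, ∀ y ∈ pts E, aeval (fun e => algebraMap ℝ K (y e)) f = 0) → ¬ GenBin J := by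
    intro J hJ1 hJ2 hbin
    obtain ⟨⟨C, _, _, hC, _⟩, hmin⟩ := hk
    have hnij : ¬ E i j := fun h => not_dSeparates_of_edge hij h hC
    have hnji : ¬ E j i := fun h => not_dSeparates_of_edge hij.symm h hC.symm
    have hcon : ¬ (DSeparates E ∅ i j ∨ ∃ c, c ≠ i ∧ c ≠ j ∧ DSeparates E {c} i j) := by
      rintro (h | ⟨c, hci, hcj, h⟩)
      · have := hmin ⟨∅, by simp, by simp, h, rfl⟩
        simp at this
        omega
      · have := hmin ⟨{c}, by simpa using hci.symm, by simpa using hcj.symm, h, rfl⟩
        simp at this
        omega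
    by_cases hji : ReflTransGen E j i
    · have hij' : ¬ ReflTransGen E i j := by
        intro h
        rcases reflTransGen_iff_eq_or_transGen.1 hji with h3 | h3
        · exact hij h3
        · exact hE j (h3.trans_left h)
      apply hcon
      rcases mainK hE hij' hnji (hJ1 j i hij' hnji) hJ2 hbin with h | ⟨c, hc1, hc2, h⟩
      · exact Or.inl h.symm
      · exact Or.inr ⟨c, hc2, hc1, h.symm⟩
    · exact hcon (mainK hE hji hnij (hJ1 i j hji hnij) hJ2 hbin)
  refine ⟨hmain, ⟨pts_sub, fun S hS1 hS2 => hmain _ ?_ ?_⟩, hmain _ ?_ ?_⟩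
  · intro a b hab _
    rw [mem_vanishingIdeal_iff]
    rintro _ ⟨y, hy, rfl⟩
    exact minor_zero hE hab (hS2 hy)
  · intro f hf y hy
    exact (mem_vanishingIdeal_iff.1 hf) _ ⟨y, hS1 hy, rfl⟩
  · intro a b h1 h3
    exact Ideal.subset_span ⟨a, b, h1, h3, rfl⟩
  · intro f hf y hy
    induction hf using Submodule.span_induction with
    | mem x hx =>
      obtain ⟨a, b, h1, -, rfl⟩ := hx
      exact minor_zero hE h1 (pts_sub hy)
    | zero => exact map_zero _
    | add x z _ _ hx hz => rw [map_add, hx, hz, add_zero]
    | smul a x _ hx => rw [smul_eq_mul, map_mul, hx, mul_zero]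

end Pool.Agent.Results.MP_3a69bf_ag.IntermediateIdeals
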